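import Pool.Agent.Helper77.OF4.St

/-!
# MP_7a9ddc_co, project OF4, module FC (a folded map is connected)
-/

set_option autoImplicit false

namespace Pool.Agent.Helper80.OF4.FC

open Equiv Equiv.Perm Pool.Agent.Helper35.PM Pool.Agent.Helper77.HY Pool.Agent.Helper77.OF4

theorem main : StFc := by
  intro V D _ _ _ M d h hM v w
  obtain ⟨v0, rfl⟩ := pr_surj _ _ h v
  obtain ⟨w0, rfl⟩ := pr_surj _ _ h w
  induction hM v0 w0 with
  | refl => exact Relation.ReflTransGen.refl
  | tail _ hbc ih =>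
    refine ih.tail ?_
    obtain ⟨e, he1, he2⟩ := hbc
    refine ⟨e, ?_, ?_⟩
    · rw [fold_t, he1]
    · rw [fold_ι, fold_t, he2]

end Pool.Agent.Helper80.OF4.FC
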